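import Mathlib

set_option autoImplicit false

namespace Pool.Agent.Results.MP_19ad23_co.Eleven

/-- `M` is a `k`-matching of the ordered graph `G`; an edge `xy` with `x < y` is the pair
`(x, y)`. -/
def IsMatching {n : ℕ} (G : SimpleGraph (Fin n)) (k : ℕ) (M : Finset (Fin n × Fin n)) : Prop :=
  M.card = k ∧ (∀ e ∈ M, e.1 < e.2 ∧ G.Adj e.1 e.2) ∧
    ∀ e ∈ M, ∀ f ∈ M, e ≠ f → e.1 ≠ f.1 ∧ e.1 ≠ f.2 ∧ e.2 ≠ f.1 ∧ e.2 ≠ f.2

def Nested {n : ℕ} (e f : Fin n × Fin n) : Prop :=
  (e.1 ≤ f.1 ∧ f.2 ≤ e.2) ∨ (f.1 ≤ e.1 ∧ e.2 ≤ f.2)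

def Crossing {n : ℕ} (e f : Fin n × Fin n) : Prop :=
  (e.1 < f.1 ∧ f.1 < e.2 ∧ e.2 < f.2) ∨ (f.1 < e.1 ∧ e.1 < f.2 ∧ f.2 < e.2)

def Separated {n : ℕ} (e f : Fin n × Fin n) : Prop := e.2 < f.1 ∨ f.2 < e.1

def NonNested {n : ℕ} (M : Finset (Fin n × Fin n)) : Prop :=
  ∀ e ∈ M, ∀ f ∈ M, e ≠ f → ¬ Nested e f

def StronglyNonNested {n : ℕ} (M : Finset (Fin n × Fin n)) : Prop :=
  ∃ part : Fin n × Fin n → ℕ, ∀ e ∈ M, ∀ f ∈ M, e ≠ f →
    (part e = part f → Crossing e f) ∧ (part e ≠ part f → Separated e f)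

/-- Largest number of edges of an ordered graph on `n` vertices with no non-nested
`k`-matching. -/
noncomputable def exNN (n k : ℕ) : ℕ :=
  sSup {m | ∃ G : SimpleGraph (Fin n), G.edgeSet.ncard = m ∧
    ¬ ∃ M, IsMatching G k M ∧ NonNested M}

/-- The same with strongly non-nested `k`-matchings forbidden. -/
noncomputable def exSNN (n k : ℕ) : ℕ :=
  sSup {m | ∃ G : SimpleGraph (Fin n), G.edgeSet.ncard = m ∧
    ¬ ∃ M, IsMatching G k M ∧ StronglyNonNested M}

def missing : List (ℕ × ℕ) :=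
  [(0, 1), (0, 2), (0, 3), (2, 7), (2, 8), (3, 7), (3, 8), (7, 10), (8, 10), (9, 10)]

def adj (x y : Fin 11) : Bool :=
  x != y && !missing.contains (x.val, y.val) && !missing.contains (y.val, x.val)

def G : SimpleGraph (Fin 11) where
  Adj x y := adj x y = true
  symm := ⟨by decide +kernel⟩
  loopless := ⟨by decide +kernel⟩

instance : DecidableRel G.Adj := fun x y => inferInstanceAs (Decidable (adj x y = true))

theorem card_G : G.edgeSet.ncard = 45 := by
  rw [← SimpleGraph.coe_edgeFinset, Set.ncard_coe_finset]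
  decide +kernel

def edges : List (Fin 11 × Fin 11) :=
  ((List.finRange 11).product (List.finRange 11)).filter fun e => e.1 < e.2 && adj e.1 e.2

def ok (e f : Fin 11 × Fin 11) : Bool := e.1 < f.1 && e.2 < f.2 && e.2 != f.1

theorem check : (edges.all fun a => edges.all fun b => !ok a b || edges.all fun c =>
    !(ok b c && ok a c) || edges.all fun d => !(ok c d && ok b d && ok a d) || edges.all fun e =>
      !(ok d e && ok c e && ok b e && ok a e)) = true := by decide +kernel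

theorem no_matching : ¬ ∃ M, IsMatching G 5 M ∧ NonNested M := by
  rintro ⟨M, ⟨hc, he, hd⟩, hn⟩
  have hinj : Set.InjOn Prod.fst (M : Set (Fin 11 × Fin 11)) := by
    intro e h1 f h2 h
    by_contra hne
    exact (hd e h1 f h2 hne).1 h
  have hS : (M.image Prod.fst).card = 5 := by rw [Finset.card_image_of_injOn hinj, hc]
  let s := (M.image Prod.fst).orderEmbOfFin hS
  have hs : ∀ i, ∃ e ∈ M, e.1 = s i := fun i =>
    Finset.mem_image.1 (Finset.orderEmbOfFin_mem _ hS i)
  choose g hg hg' using hs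
  have hE : ∀ i, g i ∈ edges := by
    intro i
    have h1 := he _ (hg i)
    simp only [edges, List.mem_filter, Bool.and_eq_true, decide_eq_true_eq]
    refine ⟨?_, h1.1, h1.2⟩
    exact List.pair_mem_product.2 ⟨List.mem_finRange _, List.mem_finRange _⟩
  have hO : ∀ i j, i < j → ok (g i) (g j) = true := by
    intro i j hij
    have h1 : (g i).1 < (g j).1 := by
      rw [hg', hg']
      exact s.strictMono hij
    have hne : g i ≠ g j := fun h => h1.ne (congrArg Prod.fst h)
    have h2 := hd _ (hg i) _ (hg j) hne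
    have h3 := hn _ (hg i) _ (hg j) hne
    simp only [ok, Bool.and_eq_true, decide_eq_true_eq, bne_iff_ne]
    refine ⟨⟨h1, ?_⟩, h2.2.2.1⟩
    by_contra h4
    exact h3 (Or.inl ⟨h1.le, not_lt.1 h4⟩)
  have h := check
  simp only [List.all_eq_true, Bool.or_eq_true, Bool.not_eq_true', Bool.and_eq_false_iff] at h
  have h01 := hO 0 1 (by decide)
  have h02 := hO 0 2 (by decide)
  have h03 := hO 0 3 (by decide)
  have h04 := hO 0 4 (by decide)
  have h12 := hO 1 2 (by decide)
  have h13 := hO 1 3 (by decide)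
  have h14 := hO 1 4 (by decide)
  have h23 := hO 2 3 (by decide)
  have h24 := hO 2 4 (by decide)
  have h34 := hO 3 4 (by decide)
  have a1 := (h _ (hE 0) _ (hE 1)).resolve_left (by simp [h01])
  have a2 := (a1 _ (hE 2)).resolve_left (by simp [h02, h12])
  have a3 := (a2 _ (hE 3)).resolve_left (by simp [h03, h13, h23])
  have a4 := a3 _ (hE 4)
  simp [h04, h14, h24, h34] at a4

theorem bdd (n : ℕ) (P : SimpleGraph (Fin n) → Prop) :
    BddAbove {m | ∃ G : SimpleGraph (Fin n), G.edgeSet.ncard = m ∧ P G} := by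
  refine ⟨(Set.univ : Set (Sym2 (Fin n))).ncard, ?_⟩
  rintro m ⟨G, rfl, -⟩
  exact Set.ncard_le_ncard (Set.subset_univ _)

theorem result :
    45 ≤ exNN 11 5 ∧ 45 ≤ exSNN 11 5 ∧
      (¬ ∀ n k : ℕ, 0 < k → 2 * k ≤ n → exNN n k = (k - 1) * n) ∧
      (¬ ∀ n k : ℕ, 0 < k → 2 * k ≤ n → exSNN n k = (k - 1) * n) := by
  have h1 : 45 ≤ exNN 11 5 := le_csSup (bdd _ _) ⟨G, card_G, no_matching⟩
  have h2 : 45 ≤ exSNN 11 5 := by
    refine le_csSup (bdd _ _) ⟨G, card_G, ?_⟩
    rintro ⟨M, hM, part, hp⟩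
    refine no_matching ⟨M, hM, fun e he f hf hne hN => ?_⟩
    have h3 := hp e he f hf hne
    have h4 := (hM.2.1 e he).1
    have h5 := (hM.2.1 f hf).1
    by_cases h : part e = part f
    · have := h3.1 h
      unfold Crossing at this
      unfold Nested at hN
      omega
    · have := h3.2 h
      unfold Separated at this
      unfold Nested at hN
      omega
  refine ⟨h1, h2, fun h => ?_, fun h => ?_⟩
  · have := h 11 5 (by norm_num) (by norm_num)
    omega
  · have := h 11 5 (by norm_num) (by norm_num)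
    omega

end Pool.Agent.Results.MP_19ad23_co.Eleven
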